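import Pool.Agent.W668.PI.Stm

/-!
# The system on the interval
-/

set_option autoImplicit false
set_option linter.all false

open Filter Topology

namespace Pool.Agent.W597.PI

open Pool.Agent.W668.PI

noncomputable section

/-- clamping to the unit interval -/
def cl (x : ℝ) : unitInterval := Set.projIcc 0 1 zero_le_one x

theorem cl_cont : Continuous cl := continuous_projIcc (h := zero_le_one)

theorem cl_of {x : ℝ} (h0 : 0 ≤ x) (h1 : x ≤ 1) : ((cl x : unitInterval) : ℝ) = x := by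
  unfold cl
  rw [Set.projIcc_of_mem zero_le_one ⟨h0, h1⟩]

theorem cl_coe (x : unitInterval) : cl (x : ℝ) = x := Set.projIcc_val zero_le_one x

theorem cl_nonpos {x : ℝ} (h : x ≤ 0) : cl x = 0 := Set.projIcc_of_le_left zero_le_one h

theorem cl_one_le {x : ℝ} (h : 1 ≤ x) : cl x = 1 := Set.projIcc_of_right_le zero_le_one h

/-- the weight on the chart -/
def vq : C(unitInterval, ℝ) where
  toFun q := 2 / 3 * min 1 (min (4 * (q : ℝ)) (4 * (1 - (q : ℝ))))
  continuous_toFun := by fun_prop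

theorem vq_apply (q : unitInterval) :
    vq q = 2 / 3 * min 1 (min (4 * (q : ℝ)) (4 * (1 - (q : ℝ)))) := rfl

theorem vq_nonneg (q : unitInterval) : 0 ≤ vq q := by
  rw [vq_apply]
  have h0 := q.2.1
  have h1 := q.2.2
  have : 0 ≤ min 1 (min (4 * (q : ℝ)) (4 * (1 - (q : ℝ)))) :=
    le_min zero_le_one (le_min (by linarith) (by linarith))
  linarith

theorem vq_le (q : unitInterval) : vq q ≤ 2 / 3 := by
  rw [vq_apply]
  have := min_le_left 1 (min (4 * (q : ℝ)) (4 * (1 - (q : ℝ))))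
  linarith

theorem vq_zero : vq 0 = 0 := by
  rw [vq_apply]
  simp

theorem vq_one : vq 1 = 0 := by
  rw [vq_apply]
  simp

theorem vq_mid {q : unitInterval} (h0 : 1 / 4 ≤ (q : ℝ)) (h1 : (q : ℝ) ≤ 3 / 4) :
    vq q = 2 / 3 := by
  rw [vq_apply, min_eq_left (le_min (by linarith) (by linarith)), mul_one]

def rho (n : ℕ) : C(unitInterval, unitInterval) where
  toFun y := cl (2 ^ (n + 1) * (y : ℝ) - 1)
  continuous_toFun := cl_cont.comp (by fun_prop)

def gam (n : ℕ) : C(unitInterval, unitInterval) where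
  toFun q := cl ((1 / 2) ^ (n + 1) * (1 + (q : ℝ)))
  continuous_toFun := cl_cont.comp (by fun_prop)

theorem half_pow (n : ℕ) : (2 : ℝ) ^ (n + 1) * (1 / 2) ^ (n + 1) = 1 := by
  rw [← mul_pow]; norm_num

theorem gam_coe (n : ℕ) (q : unitInterval) :
    ((gam n q : unitInterval) : ℝ) = (1 / 2) ^ (n + 1) * (1 + (q : ℝ)) := by
  have h0 := q.2.1
  have h1 := q.2.2
  have hp : (0 : ℝ) < (1 / 2) ^ (n + 1) := by positivity
  have hp2 : (1 / 2 : ℝ) ^ (n + 1) ≤ 1 / 2 := by
    have := pow_le_one₀ (n := n) (by norm_num : (0 : ℝ) ≤ 1 / 2) (by norm_num)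
    rw [pow_succ]
    linarith
  exact cl_of (by positivity) (by nlinarith)

theorem gam_two (n : ℕ) (q : unitInterval) :
    2 ^ (n + 1) * ((gam n q : unitInterval) : ℝ) = 1 + (q : ℝ) := by
  rw [gam_coe, ← mul_assoc, half_pow, one_mul]

theorem rho_gam (n : ℕ) (q : unitInterval) : rho n (gam n q) = q := by
  show cl (2 ^ (n + 1) * ((gam n q : unitInterval) : ℝ) - 1) = q
  rw [gam_two, add_sub_cancel_left, cl_coe]

theorem supp {n : ℕ} {y : unitInterval} (h : vq (rho n y) ≠ 0) :
    1 < 2 ^ (n + 1) * (y : ℝ) ∧ 2 ^ (n + 1) * (y : ℝ) < 2 := by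
  constructor
  · by_contra hc
    apply h
    have : rho n y = 0 := cl_nonpos (by linarith [not_lt.1 hc])
    rw [this, vq_zero]
  · by_contra hc
    apply h
    have : rho n y = 1 := cl_one_le (by linarith [not_lt.1 hc])
    rw [this, vq_one]

theorem two_pow {m n : ℕ} (h : m < n) : 2 * (2 : ℝ) ^ (m + 1) ≤ 2 ^ (n + 1) := by
  rw [← pow_succ']
  exact pow_le_pow_right₀ (by norm_num) (by omega)

theorem disj_aux {m n : ℕ} (h : m < n) (y : unitInterval) (hm : vq (rho m y) ≠ 0)
    (hn : vq (rho n y) ≠ 0) : False := by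
  have h1 := (supp hm).1
  have h2 := (supp hn).2
  have h3 := mul_le_mul_of_nonneg_right (two_pow h) y.2.1
  linarith

theorem small {O : Set unitInterval} (hO : O ∈ 𝓝 (0 : unitInterval)) :
    ∃ N : ℕ, ∀ n ≥ N, ∀ y : unitInterval, 2 ^ (n + 1) * (y : ℝ) ≤ 2 → y ∈ O := by
  obtain ⟨ε, hε, hb⟩ := Metric.mem_nhds_iff.1 hO
  obtain ⟨N, hN⟩ := exists_pow_lt_of_lt_one hε (by norm_num : (1 / 2 : ℝ) < 1)
  refine ⟨N, fun n hn y hy => hb ?_⟩
  rw [Metric.mem_ball, Subtype.dist_eq, Real.dist_eq]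
  have h0 := y.2.1
  have e0 : ((0 : unitInterval) : ℝ) = 0 := rfl
  rw [e0, sub_zero, abs_of_nonneg h0]
  have h1 : (y : ℝ) ≤ (1 / 2) ^ n := by
    have h2 := mul_le_mul_of_nonneg_left hy (by positivity : (0 : ℝ) ≤ (1 / 2) ^ (n + 1))
    rw [← mul_assoc, mul_comm ((1 / 2 : ℝ) ^ (n + 1)), half_pow, one_mul] at h2
    rw [pow_succ] at h2
    linarith
  have h3 : (1 / 2 : ℝ) ^ n ≤ (1 / 2) ^ N :=
    pow_le_pow_of_le_one (by norm_num) (by norm_num) hn
  linarith

/-- composition with a continuous map as a continuous linear map -/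
def pre {X Y : Type} [TopologicalSpace X] [CompactSpace X] [TopologicalSpace Y] [CompactSpace Y]
    (c : C(X, Y)) : C(Y, ℝ) →L[ℝ] C(X, ℝ) where
  toFun f := f.comp c
  map_add' f g := rfl
  map_smul' a f := rfl
  cont := ContinuousMap.continuous_precomp c

theorem int : S_INT := by
  rintro ⟨c, E, hpos, hone, hE⟩
  let c' : C(ℕ → Bool, unitInterval) :=
    ⟨fun z => cl (1 / 4 + (c z : ℝ) / 2), cl_cont.comp (by fun_prop)⟩
  let s : C(unitInterval, unitInterval) :=
    ⟨fun q => cl (2 * (q : ℝ) - 1 / 2), cl_cont.comp (by fun_prop)⟩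
  have hc' : ∀ z, ((c' z : unitInterval) : ℝ) = 1 / 4 + (c z : ℝ) / 2 := by
    intro z
    have h0 := (c z).2.1
    have h1 := (c z).2.2
    exact cl_of (by linarith) (by linarith)
  have hs : ∀ z, s (c' z) = c z := by
    intro z
    show cl (2 * ((c' z : unitInterval) : ℝ) - 1 / 2) = c z
    rw [hc', show 2 * (1 / 4 + (c z : ℝ) / 2) - 1 / 2 = (c z : ℝ) by ring, cl_coe]
  refine ⟨{
    v := fun n => vq.comp (rho n)
    vq := vq
    ρ := rho
    γ := gam
    p := 0
    U := pre c'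
    e := (pre s).comp E
    v_nonneg := fun n y => vq_nonneg _
    v_le := fun n y => vq_le _
    v_p := ?_
    disj := ?_
    shrink := ?_
    γ_shrink := ?_
    v_γ := ?_
    v_γ' := ?_
    ρ_γ := rho_gam
    U_pos := fun f hf y => hf _
    e_pos := fun f hf y => hpos f hf _
    U_one := rfl
    e_one := ?_
    U_e := ?_
    U_v := ?_ }⟩
  · intro n
    show vq (rho n 0) = 0
    have : rho n 0 = 0 := cl_nonpos (by simp)
    rw [this, vq_zero]
  · intro m n y hmn
    by_contra hcon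
    push Not at hcon
    rcases lt_or_gt_of_ne hmn with h | h
    · exact disj_aux h y hcon.1 hcon.2
    · exact disj_aux h y hcon.2 hcon.1
  · intro O hO
    obtain ⟨N, hN⟩ := small hO
    exact ⟨N, fun n hn y hy => hN n hn y (supp hy).2.le⟩
  · intro O hO
    obtain ⟨N, hN⟩ := small hO
    refine ⟨N, fun n hn q => hN n hn _ ?_⟩
    rw [gam_two]
    linarith [q.2.2]
  · intro n q
    show vq (rho n (gam n q)) = vq q
    rw [rho_gam]
  · intro m n q hmn
    by_contra hcon
    have h := supp (n := m) (y := gam n q) hcon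
    have h2 := gam_two n q
    have hq0 := q.2.1
    have hq1 := q.2.2
    have hy := (gam n q).2.1
    rcases lt_or_gt_of_ne hmn with h' | h'
    · have h3 := mul_le_mul_of_nonneg_right (two_pow h') hy
      linarith [h.1]
    · have h3 := mul_le_mul_of_nonneg_right (two_pow h') hy
      linarith [h.2]
  · show (E 1).comp s = 1
    rw [hone]
    rfl
  · intro a
    ext z
    show E a (s (c' z)) = a z
    rw [hs, hE]
  · intro f
    ext z
    show vq (c' z) * f (c' z) = 2 / 3 * f (c' z)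
    have h0 := (c z).2.1
    have h1 := (c z).2.2
    rw [vq_mid (by rw [hc']; linarith) (by rw [hc']; linarith)]

end

end Pool.Agent.W597.PI
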